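import Mathlib

set_option autoImplicit false

namespace Pool.Agent.H.MP_053bca_co
open Function

def Near (G : Type*) [Group G] : Prop :=
  ∃ θ g : G → G, Injective θ ∧ Injective g ∧ ∃ x0, (∀ x, x ≠ x0 → x * θ x = g x) ∧ x0 * θ x0 ≠ g x0

theorem sq_inj {G : Type*} [Group G] (h : Odd (Nat.card G)) : Injective (fun x : G => x ^ 2) :=
  (Nat.Coprime.pow_left_bijective (Nat.coprime_two_right.mpr h)).1

def R {G Q : Type*} [Group G] [Group Q] (σ : Q) (v : Q → G) : ℕ → G
  | 0 => 1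
  | k + 1 => R σ v k * v (σ ^ (k + 2)) * (v (σ ^ (k + 1)))⁻¹

theorem R_mk {G : Type*} [Group G] (N : Subgroup G) [N.Normal] (σ : G ⧸ N) (v : G ⧸ N → G)
    (hv : ∀ y, (v y : G ⧸ N) = y) (k : ℕ) : ((R σ v k : G) : G ⧸ N) = σ ^ k := by
  induction k with
  | zero => simp [R]
  | succ k ih =>
    simp only [R, QuotientGroup.mk_mul, QuotientGroup.mk_inv, ih, hv]
    group

theorem exists_section {G : Type*} [Group G] [Finite G] (hG : Odd (Nat.card G)) (N : Subgroup G) [N.Normal]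
    (hN : ∀ a ∈ N, ∀ b ∈ N, a * b = b * a) (s : G) (hs : (s : G ⧸ N) ≠ 1) (a : G) (ha : a ∈ N)
    (has : a * s ≠ s * a) :
    ∃ v : G ⧸ N → G, (∀ y, (v y : G ⧸ N) = y) ∧ R (s : G ⧸ N) v (orderOf (s : G ⧸ N)) ≠ 1 := by
  classical
  obtain ⟨σ, hσ⟩ : ∃ σ : G ⧸ N, σ = s := ⟨_, rfl⟩
  rw [← hσ] at hs ⊢
  by_contra hcon
  push Not at hcon
  let v0 : G ⧸ N → G := Quotient.out
  have hv0 : ∀ y, (v0 y : G ⧸ N) = y := fun y => Quotient.out_eq y
  let v1 := update v0 (σ ^ 2) (a * v0 (σ ^ 2))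
  have hv1 : ∀ y, (v1 y : G ⧸ N) = y := by
    intro y
    by_cases h : y = σ ^ 2
    · subst h
      simp only [v1, update_self, QuotientGroup.mk_mul, hv0, (QuotientGroup.eq_one_iff a).mpr ha, one_mul]
    · simp only [v1, update_of_ne h, hv0]
  have hq : 2 ≤ orderOf σ := by
    have h1 := orderOf_pos σ
    have h2 : orderOf σ ≠ 1 := fun h => hs (orderOf_eq_one_iff.mp h)
    omega
  have hne : ∀ j, 0 < j → j < orderOf σ → σ ^ (j + 2) ≠ σ ^ 2 := by
    intro j h1 h2 h
    rw [pow_add, mul_eq_right] at h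
    exact pow_ne_one_of_lt_orderOf h1.ne' h2 h
  have key : ∀ k, 2 ≤ k → k ≤ orderOf σ → (R σ v1 2)⁻¹ * R σ v1 k = (R σ v0 2)⁻¹ * R σ v0 k := by
    intro k hk
    induction k, hk using Nat.le_induction with
    | base => simp
    | succ k hk ih =>
      intro h
      have e1 : v1 (σ ^ (k + 2)) = v0 (σ ^ (k + 2)) := update_of_ne (hne k (by omega) (by omega)) _ _
      have e2 : v1 (σ ^ (k + 1)) = v0 (σ ^ (k + 1)) := by
        apply update_of_ne
        have := hne (k - 1) (by omega) (by omega)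
        rwa [show k - 1 + 2 = k + 1 by omega] at this
      rw [R.eq_2 σ v1 k, R.eq_2 σ v0 k, e1, e2, ← mul_assoc, ← mul_assoc, ih (by omega)]
      simp only [mul_assoc]
  have h2 := key _ hq le_rfl
  rw [hcon v0 hv0, hcon v1 hv1, mul_one, mul_one, inv_inj] at h2
  have e1 : v1 (σ ^ (0 + 1)) = v0 (σ ^ (0 + 1)) := by
    apply update_of_ne
    intro h
    rw [zero_add, pow_one, sq, eq_comm, mul_eq_left] at h
    exact hs h
  have e3 : v1 (σ ^ (1 + 2)) = v0 (σ ^ (1 + 2)) := update_of_ne (hne 1 one_pos hq) _ _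
  have e2 : v1 (σ ^ 2) = a * v0 (σ ^ 2) := update_self _ _ _
  have h3 : R σ v1 2 = a * R σ v0 2 * a⁻¹ := by
    rw [R.eq_2 σ v1 1, R.eq_2 σ v0 1, R.eq_2 σ v1 0, R.eq_2 σ v0 0, e1, e3, R.eq_1, R.eq_1]
    simp only [zero_add, Nat.reduceAdd, e2]
    group
  have h4 : R σ v0 2 * (s ^ 2)⁻¹ ∈ N := by
    rw [← QuotientGroup.eq_one_iff, QuotientGroup.mk_mul, R_mk N σ v0 hv0, hσ]
    simp
  have h5 := hN a ha _ h4
  rw [h3] at h2
  generalize R σ v0 2 = y at h2 h5
  have h6 : (a * s * a⁻¹) ^ 2 = s ^ 2 := by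
    rw [conj_pow]
    have h7 : a * y = y * a := by
      conv_rhs => rw [← h2]
      group
    have h8 : y * (a * (s ^ 2)⁻¹) = y * ((s ^ 2)⁻¹ * a) := by
      rw [← mul_assoc, ← h7, mul_assoc, h5, mul_assoc]
    have h9 := mul_left_cancel h8
    calc a * s ^ 2 * a⁻¹ = s ^ 2 * ((s ^ 2)⁻¹ * a) * s ^ 2 * a⁻¹ := by group
      _ = s ^ 2 * (a * (s ^ 2)⁻¹) * s ^ 2 * a⁻¹ := by rw [h9]
      _ = s ^ 2 := by group
  have h10 : a * s * a⁻¹ = s := sq_inj hG h6
  apply has
  conv_rhs => rw [← h10]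
  group

theorem core {G : Type*} [Group G] [Finite G] (hG : Odd (Nat.card G)) (N : Subgroup G) [N.Normal]
    (hN : ∀ a ∈ N, ∀ b ∈ N, a * b = b * a) (s : G) (hs : (s : G ⧸ N) ≠ 1)
    (hgen : ∀ y : G ⧸ N, y ∈ Subgroup.zpowers (s : G ⧸ N)) (a : G) (ha : a ∈ N)
    (has : a * s ≠ s * a) : Near G := by
  classical
  obtain ⟨v, hv, hR⟩ := exists_section hG N hN s hs a ha has
  generalize (s : G ⧸ N) = σ at hs hgen hR
  have hQ : Odd (Nat.card (G ⧸ N)) := hG.of_dvd_nat (Subgroup.card_quotient_dvd_card N)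
  have : ∀ y : G ⧸ N, ∃ k, k < orderOf σ ∧ σ ^ k = y := by
    intro y
    obtain ⟨k, hk⟩ := (Submonoid.mem_powers_iff _ _).mp ((mem_powers_iff_mem_zpowers).mpr (hgen y))
    exact ⟨k % orderOf σ, Nat.mod_lt _ (orderOf_pos σ), by rw [pow_mod_orderOf, hk]⟩
  choose l hl1 hl2 using this
  have hl : ∀ k, k < orderOf σ → l (σ ^ k) = k := fun k hk =>
    pow_injOn_Iio_orderOf (hl1 _) hk (hl2 _)
  let u : G ⧸ N → G := fun y => R σ v (l y)
  have hu : ∀ y, (u y : G ⧸ N) = y := fun y => by rw [R_mk N σ v hv, hl2]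
  have huinj : Injective u := fun y z h => by rw [← hu y, h, hu]
  let θ1 : G → G := fun x => (u x)⁻¹ * x * v x
  have hθ1 : ∀ x, (θ1 x : G ⧸ N) = x := by
    intro x
    simp only [θ1, QuotientGroup.mk_mul, QuotientGroup.mk_inv, hu, hv]
    group
  have hθinj : Injective θ1 := by
    intro x x' h
    have e : (x : G ⧸ N) = x' := by rw [← hθ1 x, h, hθ1]
    simpa [θ1, e] using h
  have hginj : Injective (fun x => x * θ1 x) := by
    intro x x' h
    have e : (x : G ⧸ N) = x' := by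
      apply sq_inj hQ
      have := congrArg (fun z : G => (z : G ⧸ N)) h
      simpa only [QuotientGroup.mk_mul, hθ1, sq] using this
    simp only [θ1, e] at h
    have h2 : (x * (u x')⁻¹) ^ 2 = (x' * (u x')⁻¹) ^ 2 := by
      calc _ = x * ((u x')⁻¹ * x * v x') * (v x')⁻¹ * (u x')⁻¹ := by rw [sq]; group
        _ = _ := by rw [h, sq]; group
    exact mul_right_cancel (sq_inj hG h2)
  let τ : Equiv.Perm G := (Equiv.mulRight σ).viaEmbedding ⟨u, huinj⟩
  have hτ : ∀ y, τ (u y) = u (y * σ) := fun y => Equiv.Perm.viaEmbedding_apply _ ⟨u, huinj⟩ y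
  have hθu : ∀ y, θ1 (u y) = v y := fun y => by simp [θ1, hu]
  have hpos := orderOf_pos σ
  refine ⟨fun x => θ1 (τ (τ x)), fun x => τ x * θ1 (τ x), hθinj.comp (τ.injective.comp τ.injective),
    hginj.comp τ.injective, u (σ ^ (orderOf σ - 1)), fun x hx => ?_, ?_⟩
  · by_cases h : x ∈ Set.range u
    · obtain ⟨y, rfl⟩ := h
      have h1 : l y + 1 < orderOf σ := by
        have := hl1 y
        have h2 : l y ≠ orderOf σ - 1 := fun h => hx (by rw [← h, hl2])
        omega
      have h2 : u (y * σ) = u y * v (y * σ * σ) * (v (y * σ))⁻¹ := by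
        conv_lhs => rw [← hl2 y, ← pow_succ]
        simp only [u]
        rw [hl _ h1, R.eq_2, pow_succ, pow_succ, hl2]
      simp only [hτ, hθu]
      rw [h2]
      group
    · have : τ x = x := Equiv.Perm.viaEmbedding_apply_of_notMem _ ⟨u, huinj⟩ x h
      simp only [this]
  · simp only [hτ, hθu]
    intro h
    apply hR
    obtain ⟨k, hk⟩ : ∃ k, orderOf σ = k + 1 := ⟨orderOf σ - 1, by omega⟩
    have h0 : u (σ ^ k * σ) = 1 := by
      rw [← pow_succ, ← hk, pow_orderOf_eq_one, ← pow_zero σ]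
      simp only [u]
      rw [hl 0 hpos, R.eq_1]
    have h1 : u (σ ^ k) = R σ v k := by
      simp only [u]
      rw [hl k (by omega)]
    rw [hk, Nat.add_sub_cancel, h0, h1, one_mul] at h
    rw [hk, R.eq_2, pow_succ, pow_succ, h, mul_inv_cancel]

theorem transfer {G : Type*} [Group G] [Finite G] (hG : Odd (Nat.card G)) (H : Subgroup G) (h : Near H) :
    Near G := by
  classical
  obtain ⟨θ, g, hθ, hg, x0, h1, h2⟩ := h
  have hsq : ∀ x : G, x * x ∈ H → x ∈ H := by
    intro x hx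
    have hH : Odd (Nat.card H) := hG.of_dvd_nat (Subgroup.card_subgroup_dvd_card H)
    obtain ⟨y, hy⟩ := Finite.injective_iff_surjective.mp (sq_inj hH) ⟨_, hx⟩
    have : (y : G) = x := sq_inj hG (by simpa [sq] using congrArg Subtype.val hy)
    exact this ▸ y.2
  refine ⟨fun x => if h : x ∈ H then θ ⟨x, h⟩ else x, fun x => if h : x ∈ H then g ⟨x, h⟩ else x * x,
    ?_, ?_, x0, ?_, ?_⟩
  · intro x y hxy
    by_cases hx : x ∈ H <;> by_cases hy : y ∈ H <;> simp only [hx, hy, dite_true, dite_false] at hxy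
    · exact congrArg Subtype.val (hθ (Subtype.ext hxy))
    · exact absurd (hxy ▸ (θ ⟨x, hx⟩).2) hy
    · exact absurd (hxy ▸ (θ ⟨y, hy⟩).2) hx
    · exact hxy
  · intro x y hxy
    by_cases hx : x ∈ H <;> by_cases hy : y ∈ H <;> simp only [hx, hy, dite_true, dite_false] at hxy
    · exact congrArg Subtype.val (hg (Subtype.ext hxy))
    · exact absurd (hsq y (hxy ▸ (g ⟨x, hx⟩).2)) hy
    · exact absurd (hsq x (hxy ▸ (g ⟨y, hy⟩).2)) hx
    · exact sq_inj hG (by simpa [sq] using hxy)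
  · intro x hx
    by_cases hH : x ∈ H <;> simp only [hH, dite_true, dite_false]
    exact congrArg Subtype.val (h1 ⟨x, hH⟩ (fun h => hx (congrArg Subtype.val h)))
  · simp only [x0.2, dite_true]
    exact fun h => h2 (Subtype.ext h)

theorem not_perfect {G : Type*} [Group G] [Finite G] [Nontrivial G]
    (h : ∀ H : Subgroup G, H ≠ ⊤ → ∀ a ∈ H, ∀ b ∈ H, a * b = b * a) : commutator G ≠ ⊤ := by
  by_cases hs : ∀ (p : ℕ) (_hp : Fact p.Prime) (P : Sylow p G), (P : Subgroup G).Normal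
  · have : Group.IsNilpotent G := (Group.isNilpotent_of_finite_tfae.out 0 3 rfl rfl).mpr hs
    exact (Group.IsSolvable.commutator_lt_top_of_nontrivial G).ne
  · push Not at hs
    obtain ⟨p, hp, P, hP⟩ := hs
    have h1 : Subgroup.normalizer ((P : Subgroup G) : Set G) ≠ ⊤ := fun h =>
      hP (Subgroup.normalizer_eq_top_iff.mp h)
    have h2 : Subgroup.normalizer ((P : Subgroup G) : Set G) ≤ Subgroup.centralizer (P : Set G) :=
      fun x hx => Subgroup.mem_centralizer_iff.mpr fun y hy => h _ h1 y (Subgroup.le_normalizer hy) x hx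
    intro hc
    have h3 := MonoidHom.ker_transferSylow_isComplement' P h2
    have h4 : (MonoidHom.transferSylow P h2).ker = ⊤ := by
      rw [eq_top_iff, ← hc, commutator_def, Subgroup.commutator_le]
      intro x _ y _
      rw [MonoidHom.mem_ker, map_commutatorElement, commutatorElement_eq_one_iff_mul_comm]
      exact Subtype.ext (h _ h1 _ (Subgroup.le_normalizer (Subtype.prop _)) _
        (Subgroup.le_normalizer (Subtype.prop _)))
    have h5 := h3.disjoint
    rw [h4, top_disjoint] at h5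
    apply hP
    rw [h5]
    infer_instance

theorem near_of_noncomm (n : ℕ) : ∀ (G : Type) [Group G] [Finite G], Nat.card G = n → Odd n →
    (∃ a b : G, a * b ≠ b * a) → Near G := by
  induction n using Nat.strong_induction_on with
  | _ n ih =>
    intro G _ _ hn hodd hab
    subst hn
    by_cases h : ∀ H : Subgroup G, H ≠ ⊤ → ∀ a ∈ H, ∀ b ∈ H, a * b = b * a
    · obtain ⟨a, b, hab⟩ := hab
      have : Nontrivial G := ⟨a, b, by rintro rfl; exact hab rfl⟩
      obtain ⟨M, hM, hM'⟩ := (eq_top_or_exists_le_coatom (commutator G)).resolve_left (not_perfect h)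
      have : M.Normal := Subgroup.Normal.of_commutator_le G hM'
      obtain ⟨s, -, hs⟩ := SetLike.exists_of_lt hM.lt_top
      have htop : M ⊔ Subgroup.zpowers s = ⊤ :=
        hM.2 _ (lt_of_le_of_ne le_sup_left fun e => hs (e ▸ Subgroup.mem_sup_right (Subgroup.mem_zpowers s)))
      have hdec : ∀ x : G, ∃ m ∈ M, ∃ k : ℤ, m * s ^ k = x := by
        intro x
        obtain ⟨m, hm, z, ⟨k, rfl⟩, e⟩ := Subgroup.mem_sup_of_normal_left.mp (htop ▸ Subgroup.mem_top x)
        exact ⟨m, hm, k, e⟩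
      have hex : ∃ c ∈ M, c * s ≠ s * c := by
        by_contra hcon
        push Not at hcon
        obtain ⟨m, hm, k, rfl⟩ := hdec a
        obtain ⟨m', hm', k', rfl⟩ := hdec b
        have c1 : Commute m m' := h M hM.1 m hm m' hm'
        have c2 : Commute m s := hcon m hm
        have c3 : Commute m' s := hcon m' hm'
        exact hab ((c1.mul_right (c2.zpow_right k')).mul_left
          ((c3.symm.zpow_left k).mul_right (Commute.zpow_zpow_self s k k')))
      obtain ⟨c, hc, hcs⟩ := hex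
      refine core hodd M (h M hM.1) s (fun e => hs ((QuotientGroup.eq_one_iff s).mp e)) ?_ c hc hcs
      intro y
      obtain ⟨x, rfl⟩ := QuotientGroup.mk_surjective y
      obtain ⟨m, hm, k, rfl⟩ := hdec x
      refine ⟨k, ?_⟩
      simp [(QuotientGroup.eq_one_iff m).mpr hm]
    · push Not at h
      obtain ⟨H, hH, a, ha, b, hb, hab⟩ := h
      refine transfer hodd H (ih _ ?_ H rfl (hodd.of_dvd_nat (Subgroup.card_subgroup_dvd_card H))
        ⟨⟨a, ha⟩, ⟨b, hb⟩, fun e => hab (congrArg Subtype.val e)⟩)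
      exact lt_of_le_of_ne (Subgroup.card_le_card_group H) fun e => hH (Subgroup.eq_top_of_card_eq H e)

end Pool.Agent.H.MP_053bca_co
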